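import Pool.Agent.Y748.SR.Stm7

/-!
Project SR, part 4: the sums over the grid.
-/

open Finset Filter Topology MeasureTheory

set_option autoImplicit false

namespace Pool.Agent.Y576.SR

open Pool.Agent.Y748.SR

/-! ### Exchanging coordinates, and the pairs of the grid -/

theorem corO_perm (u : ℕ → ℝ) (k N : ℕ) (a b : Fin k → ℝ) (σ : Equiv.Perm (Fin k)) :
    corO u k N (a ∘ σ) (b ∘ σ) = corO u k N a b := by
  unfold corO
  have h1 : ∀ x : ℝ, ({n : Fin k → ℕ | Function.Injective n ∧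
      ∀ i, 1 ≤ n i ∧ u (n i) - x ∈ Set.Ioc ((a ∘ σ) i) ((b ∘ σ) i)}.ncard : ℝ) =
      ({n : Fin k → ℕ | Function.Injective n ∧
        ∀ i, 1 ≤ n i ∧ u (n i) - x ∈ Set.Ioc (a i) (b i)}.ncard : ℝ) := by
    intro x
    have hinj : Function.Injective fun n : Fin k → ℕ => n ∘ σ := fun n n' h => by
      funext i
      have := congrFun h (σ.symm i)
      simpa using this
    have e : {n : Fin k → ℕ | Function.Injective n ∧
        ∀ i, 1 ≤ n i ∧ u (n i) - x ∈ Set.Ioc ((a ∘ σ) i) ((b ∘ σ) i)} =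
        (fun n : Fin k → ℕ => n ∘ σ) '' {n : Fin k → ℕ | Function.Injective n ∧
          ∀ i, 1 ≤ n i ∧ u (n i) - x ∈ Set.Ioc (a i) (b i)} := by
      ext n
      constructor
      · rintro ⟨h2, h3⟩
        refine ⟨n ∘ σ.symm, ⟨h2.comp σ.symm.injective, fun i => ?_⟩, ?_⟩
        · have := h3 (σ.symm i)
          simpa using this
        · funext i
          simp
      · rintro ⟨n', ⟨h2, h3⟩, rfl⟩
        exact ⟨h2.comp σ.injective, fun i => h3 (σ i)⟩
    rw [e, Set.ncard_image_of_injective _ hinj]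
  simp only [h1]

theorem grid_two (m : Mom) (M : ℕ) {B : Finset ℤ} {x : Fin 2 → ℤ} (hx : StrictMono x)
    (hB : B = univ.image x) :
    grid m M B = (M : ℝ) ^ 2 * m 2 (fun i => (x i : ℝ) / M) (fun i => ((x i : ℝ) + 1) / M) := by
  have hc : B.card = 2 := by
    rw [hB, Finset.card_image_of_injective _ hx.injective, Finset.card_univ, Fintype.card_fin]
  have h1 : ∀ k : ℕ, ∀ h : B.card = k, grid m M B = (M : ℝ) ^ k *
      m k (fun i => ((B.orderEmbOfFin h i : ℤ) : ℝ) / M)
        (fun i => (((B.orderEmbOfFin h i : ℤ) : ℝ) + 1) / M) := by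
    rintro k rfl
    rfl
  have h2 : x = B.orderEmbOfFin hc := by
    apply Finset.orderEmbOfFin_unique hc _ hx
    intro i
    rw [hB]
    exact Finset.mem_image_of_mem _ (Finset.mem_univ i)
  rw [h1 2 hc, h2]

/-- the pairs of intervals of the grid in the limit -/
theorem lim_pair {u : ℕ → ℝ} {I : Type} {l : Filter I} {N : I → ℕ} {m : Mom}
    (H : IsLim l u N m) {M : ℕ} (hM : 1 ≤ M) {d : ℤ} (hd : d ≠ 0) :
    Tendsto (fun j => (M : ℝ) * corO u 2 (N j) ![0, (d : ℝ) / M] ![1 / M, ((d : ℝ) + 1) / M]) l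
      (𝓝 ((1 / M : ℝ) * (1 - Gs m M d))) := by
  have hM0 : (0 : ℝ) < M := by exact_mod_cast hM
  have hG : 1 - Gs m M d = grid m M {0, d} := by
    unfold Gs
    rw [if_neg hd]
    ring
  rw [hG]
  have key : ∀ x : Fin 2 → ℤ, StrictMono x → ({0, d} : Finset ℤ) = univ.image x →
      Tendsto (fun j => (M : ℝ) * corO u 2 (N j) (fun i => (x i : ℝ) / M)
        (fun i => ((x i : ℝ) + 1) / M)) l (𝓝 ((1 / M : ℝ) * grid m M {0, d})) := by
    intro x hx hB
    rw [grid_two m M hx hB]
    have hdis : Dis (fun i : Fin 2 => (x i : ℝ) / M) (fun i => ((x i : ℝ) + 1) / M) := by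
      refine ⟨fun i => ?_, fun i j hij => ?_⟩
      · exact div_lt_div_of_pos_right (lt_add_one _) hM0
      · refine div_le_div_of_nonneg_right ?_ hM0.le
        have : x i + 1 ≤ x j := hx hij
        exact_mod_cast this
    have h1 := (H.lim 2 _ _ hdis).const_mul (M : ℝ)
    have h2 : (1 / M : ℝ) * ((M : ℝ) ^ 2 * m 2 (fun i => (x i : ℝ) / M)
        (fun i => ((x i : ℝ) + 1) / M)) = M * m 2 (fun i => (x i : ℝ) / M)
        (fun i => ((x i : ℝ) + 1) / M) := by
      field_simp
    rw [h2]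
    exact h1
  rcases lt_or_gt_of_ne hd with h | h
  · have hx : StrictMono ![d, 0] := by
      intro i j hij
      fin_cases i <;> fin_cases j <;> simp_all
    have hB : ({0, d} : Finset ℤ) = univ.image ![d, 0] := by
      ext t
      simp only [Finset.mem_insert, Finset.mem_singleton, Finset.mem_image, Finset.mem_univ,
        true_and, Fin.exists_fin_two]
      simp only [Matrix.cons_val_zero, Matrix.cons_val_one]
      constructor
      · rintro (h | h)
        · exact Or.inr h.symm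
        · exact Or.inl h.symm
      · rintro (h | h)
        · exact Or.inr h.symm
        · exact Or.inl h.symm
    refine (key _ hx hB).congr fun j => ?_
    congr 1
    rw [← corO_perm u 2 (N j) ![0, (d : ℝ) / M] ![1 / M, ((d : ℝ) + 1) / M] (Equiv.swap 0 1)]
    congr 1 <;> (funext i; fin_cases i <;> simp)
  · have hx : StrictMono ![0, d] := by
      intro i j hij
      fin_cases i <;> fin_cases j <;> simp_all
    have hB : ({0, d} : Finset ℤ) = univ.image ![0, d] := by
      ext t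
      simp only [Finset.mem_insert, Finset.mem_singleton, Finset.mem_image, Finset.mem_univ,
        true_and, Fin.exists_fin_two]
      simp only [Matrix.cons_val_zero, Matrix.cons_val_one]
      constructor
      · rintro (h | h)
        · exact Or.inl h.symm
        · exact Or.inr h.symm
      · rintro (h | h)
        · exact Or.inl h.symm
        · exact Or.inr h.symm
    refine (key _ hx hB).congr fun j => ?_
    congr 1
    congr 1 <;> (funext i; fin_cases i <;> simp)

/-! ### Tails of sums over the integers -/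

theorem tail_sum (n : ℕ) (hn : 1 ≤ n) (s : Finset ℤ) :
    ∑ d ∈ s, (if n ≤ d.natAbs then 1 / (d : ℝ) ^ 2 else (0 : ℝ)) ≤ (4 : ℝ) / n := by
  have hn0 : (0 : ℝ) < n := by exact_mod_cast hn
  have h1 : ∀ t : Finset ℤ, Set.InjOn Int.natAbs (t : Set ℤ) →
      ∑ d ∈ t, (if n ≤ d.natAbs then 1 / (d : ℝ) ^ 2 else (0 : ℝ)) ≤ (2 : ℝ) / n := by
    intro t ht
    have h2 : ∑ d ∈ t, (if n ≤ d.natAbs then 1 / (d : ℝ) ^ 2 else (0 : ℝ)) =
        ∑ i ∈ t.image Int.natAbs, (if n ≤ i then 1 / (i : ℝ) ^ 2 else (0 : ℝ)) := by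
      rw [Finset.sum_image ht]
      refine Finset.sum_congr rfl fun d _ => ?_
      have h3 : ((d.natAbs : ℕ) : ℝ) ^ 2 = (d : ℝ) ^ 2 := by
        rw [Nat.cast_natAbs, Int.cast_abs, sq_abs]
      rw [h3]
    rw [h2, ← Finset.sum_filter]
    obtain ⟨L, hL⟩ : ∃ L : ℕ, ∀ i ∈ t.image Int.natAbs, i < L := by
      refine ⟨(t.image Int.natAbs).sup id + 1, fun i hi => ?_⟩
      exact Nat.lt_succ_of_le (Finset.le_sup (f := id) hi)
    calc ∑ i ∈ (t.image Int.natAbs).filter (fun i => n ≤ i), 1 / (i : ℝ) ^ 2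
        ≤ ∑ i ∈ Finset.Ioo (n - 1) L, ((i : ℝ) ^ 2)⁻¹ := by
          simp only [one_div]
          refine Finset.sum_le_sum_of_subset_of_nonneg ?_ fun i _ _ => by positivity
          intro i hi
          rw [Finset.mem_filter] at hi
          rw [Finset.mem_Ioo]
          exact ⟨by omega, hL i hi.1⟩
      _ ≤ 2 / (((n - 1 : ℕ) : ℝ) + 1) := sum_Ioo_inv_sq_le _ _
      _ = 2 / n := by
          congr 1
          have : n - 1 + 1 = n := by omega
          exact_mod_cast this
  rw [← Finset.sum_filter_add_sum_filter_not s (fun d => 0 ≤ d)]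
  have h3 := h1 (s.filter fun d => 0 ≤ d) (by
    intro a ha b hb hab
    simp only [Finset.coe_filter, Set.mem_setOf_eq] at ha hb
    omega)
  have h4 := h1 (s.filter fun d => ¬ 0 ≤ d) (by
    intro a ha b hb hab
    simp only [Finset.coe_filter, Set.mem_setOf_eq] at ha hb
    omega)
  have h5 : (4 : ℝ) / n = 2 / n + 2 / n := by ring
  rw [h5]
  exact add_le_add h3 h4

/-! ### The test functions and the cutoff -/

theorem rr_cont {R : ℝ → ℝ} (hR : Continuous R) : Continuous (rr R) := by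
  unfold rr
  apply intervalIntegral.continuous_parametric_intervalIntegral_of_continuous'
  fun_prop

theorem rr_even (R : ℝ → ℝ) (x : ℝ) : rr R (-x) = rr R x := by
  unfold rr
  refine intervalIntegral.integral_congr fun α _ => ?_
  have h : 2 * Real.pi * (-x) * α = -(2 * Real.pi * x * α) := by ring
  show R α * Real.cos (2 * Real.pi * (-x) * α) = R α * Real.cos (2 * Real.pi * x * α)
  rw [h, Real.cos_neg]

theorem cut_cont (K : ℕ) : Continuous (cut K) := by
  unfold cut
  fun_prop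

theorem cut_even (K : ℕ) (v : ℝ) : cut K (-v) = cut K v := by
  unfold cut
  rw [abs_neg]

theorem cut_nonneg (K : ℕ) (v : ℝ) : 0 ≤ cut K v := le_max_left _ _

theorem cut_le (K : ℕ) (v : ℝ) : cut K v ≤ 1 := max_le zero_le_one (min_le_left _ _)

theorem cut_far (K : ℕ) {v : ℝ} (h : ((K + 1 : ℕ) : ℝ) ≤ |v|) : cut K v = 0 := by
  unfold cut
  push_cast at h
  exact max_eq_left ((min_le_right _ _).trans (by linarith))

theorem cut_near (K : ℕ) {v : ℝ} (h : |v| ≤ K) : cut K v = 1 := by
  unfold cut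
  rw [min_eq_left (by linarith), max_eq_right zero_le_one]

theorem summable_rr {R : ℝ → ℝ} {A : ℝ} (hA : ∀ x, |rr R x| ≤ A / (1 + x ^ 2)) {M : ℕ}
    (hM : 1 ≤ M) : Summable fun d : ℤ => rr R (d / M) := by
  have hM0 : (0 : ℝ) < M := by exact_mod_cast hM
  have hA0 : 0 ≤ A := by
    have h := (abs_nonneg _).trans (hA 0)
    simpa using h
  have h1 : Summable fun d : ℤ => A * M ^ 2 * (1 / (d : ℝ) ^ 2) :=
    (Real.summable_one_div_int_pow.2 one_lt_two).mul_left _
  refine Summable.of_norm_bounded_eventually h1 ?_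
  have h2 : ∀ᶠ d : ℤ in Filter.cofinite, d ≠ 0 := (Set.finite_singleton (0 : ℤ)).compl_mem_cofinite
  filter_upwards [h2] with d hd
  have hd0 : (0 : ℝ) < (d : ℝ) ^ 2 := by
    have : (d : ℝ) ≠ 0 := by exact_mod_cast hd
    positivity
  rw [Real.norm_eq_abs]
  refine (hA _).trans ?_
  rw [mul_one_div, div_le_div_iff₀ (by positivity) hd0, div_pow]
  have h3 : A * M ^ 2 * (1 + (d : ℝ) ^ 2 / M ^ 2) = A * M ^ 2 + A * (d : ℝ) ^ 2 := by
    field_simp
  rw [h3]
  have : 0 ≤ A * (M : ℝ) ^ 2 := by positivity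
  linarith

/-! ### The theorem -/

theorem t_EVAL (hGRID : S_GRID) (hPOI : S_POI) : S_EVAL := by
  intro u hu hMg I l N m hl H hPD R κ hκ0 hκ1 hR ε hε
  obtain ⟨A, hA⟩ := hR.decay
  have hA0 : 0 ≤ A := by
    have h := (abs_nonneg _).trans (hA 0)
    simpa using h
  obtain ⟨C, hC0, hC⟩ := hMg.mg R κ hκ0 hκ1 hR
  obtain ⟨K, hK1, hK⟩ : ∃ K : ℕ, 1 ≤ K ∧ C / K + 8 * A / K ≤ ε / 4 := by
    obtain ⟨K, hK⟩ := exists_nat_ge (4 * (C + 8 * A) / ε)
    refine ⟨K + 1, by omega, ?_⟩
    have hK0 : (0 : ℝ) < ((K + 1 : ℕ) : ℝ) := by positivity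
    rw [← add_div, div_le_iff₀ hK0]
    rw [div_le_iff₀ hε] at hK
    push_cast
    nlinarith
  have hK0 : (0 : ℝ) < K := by exact_mod_cast hK1
  set f : ℝ → ℝ := fun v => rr R v * cut K v with hf
  have hfc : Continuous f := (rr_cont hR.cont).mul (cut_cont K)
  have hfe : ∀ v, f (-v) = f v := fun v => by simp only [hf, rr_even, cut_even]
  have hf0 : ∀ v : ℝ, ((K + 1 : ℕ) : ℝ) ≤ |v| → f v = 0 := fun v hv => by
    simp only [hf, cut_far K hv, mul_zero]
  obtain ⟨CG, hCG⟩ := hGRID u hu hMg.pb f (K + 1) hfc hfe hf0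
  set ω : ℝ := ε / (4 * (|CG| + 1)) with hω
  have hω0 : 0 < ω := by positivity
  have hCω : CG * ω ≤ ε / 4 := by
    have h1 : CG * ω ≤ (|CG| + 1) * ω :=
      mul_le_mul_of_nonneg_right ((le_abs_self _).trans (by linarith)) hω0.le
    have h2 : (|CG| + 1) * ω = ε / 4 := by
      rw [hω]
      have : |CG| + 1 ≠ 0 := by positivity
      field_simp
    linarith
  obtain ⟨δ, hδ, hδf⟩ : ∃ δ > 0, ∀ v w : ℝ, |v - w| ≤ δ → |f v - f w| ≤ ω := by
    have hcs : HasCompactSupport f := by
      refine HasCompactSupport.intro (isCompact_Icc (a := -((K + 1 : ℕ) : ℝ))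
        (b := ((K + 1 : ℕ) : ℝ))) fun v hv => hf0 v ?_
      by_contra hcon
      push Not at hcon
      exact hv (abs_le.1 hcon.le)
    have huc := hcs.uniformContinuous_of_continuous hfc
    obtain ⟨δ, hδ, h⟩ := Metric.uniformContinuous_iff.1 huc ω hω0
    refine ⟨δ / 2, by positivity, fun v w hvw => ?_⟩
    have := h (a := v) (b := w) (by rw [Real.dist_eq]; linarith)
    rw [Real.dist_eq] at this
    exact this.le
  obtain ⟨M1, hM1⟩ := exists_nat_ge (1 / δ)
  refine ⟨max M1 3, fun M hM => ?_⟩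
  have hM3 : 3 ≤ M := (le_max_right _ _).trans hM
  have hM1' : 1 ≤ M := by omega
  have hM0 : (0 : ℝ) < M := by exact_mod_cast hM1'
  have hMδ : (1 / M : ℝ) ≤ δ := by
    rw [div_le_iff₀ hM0]
    have h1 : (M1 : ℝ) ≤ M := by exact_mod_cast (le_max_left _ _).trans hM
    rw [div_le_iff₀ hδ] at hM1
    nlinarith
  have G := hPD M hM1'
  have hg1 := hCG M hM1' ω (fun v w h => hδf v w (h.trans hMδ)) (ε / 8) (by positivity)
  have hg2 := hC K hK1 (ε / 8) (by positivity)
  set D : Finset ℤ := (Finset.Icc (-(((K + 1) * M : ℕ) : ℤ)) (((K + 1) * M : ℕ) : ℤ)).erase 0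
    with hD
  -- the limit of the finite sum
  set TL : ℝ := ∑ d ∈ D, f (d / M) * ((1 / M : ℝ) * (1 - Gs m M d)) with hTL
  have hT : Tendsto (fun j => ∑ d ∈ D, f (d / M) *
      (M * corO u 2 (N j) ![0, (d : ℝ) / M] ![1 / M, ((d : ℝ) + 1) / M])) l (𝓝 TL) := by
    refine tendsto_finset_sum _ fun d hd => ?_
    exact (lim_pair H hM1' (Finset.mem_erase.1 hd).1).const_mul _
  have hg3 : ∀ᶠ j in l, |(∑ d ∈ D, f (d / M) *
      (M * corO u 2 (N j) ![0, (d : ℝ) / M] ![1 / M, ((d : ℝ) + 1) / M])) - TL| ≤ ε / 8 := by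
    have := (Metric.tendsto_nhds.1 hT) (ε / 8) (by positivity)
    filter_upwards [this] with j hj
    rw [Real.dist_eq] at hj
    exact hj.le
  -- the static part
  have hs1 : Summable fun d : ℤ => rr R (d / M) := summable_rr hA hM1'
  have hs2 : Summable fun d : ℤ => rr R (d / M) * Gs m M d := by
    refine Summable.of_norm_bounded hs1.abs fun d => ?_
    rw [norm_mul, Real.norm_eq_abs, Real.norm_eq_abs]
    exact mul_le_of_le_one_right (abs_nonneg _) (G.le d)
  set S : ℝ := (1 / M : ℝ) * ∑' d : ℤ, rr R (d / M) * Gs m M d with hS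
  set a : ℤ → ℝ := fun d => (1 / M : ℝ) * (rr R (d / M) * (1 - Gs m M d)) with ha
  have hsa : HasSum a (R 0 - S) := by
    have h1 := (hs1.hasSum.sub hs2.hasSum).mul_left (1 / M : ℝ)
    have h2 := hPOI R κ hκ0 hκ1 hR M hM3 0 (by norm_num)
    simp only [mul_zero, Real.cos_zero, mul_one] at h2
    rw [mul_sub, h2] at h1
    refine h1.congr_fun ?_
    intro d
    simp only [ha]
    ring
  set F : ℤ → ℝ := fun d => (1 - cut K (d / M)) * a d with hF
  have hFb : ∀ s : Finset ℤ, ∑ d ∈ s, |F d| ≤ 8 * A / K := by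
    intro s
    have h1 : ∀ d : ℤ, |F d| ≤ 2 * A * M *
        (if K * M ≤ d.natAbs then 1 / (d : ℝ) ^ 2 else (0 : ℝ)) := by
      intro d
      have hnat : ((d.natAbs : ℕ) : ℝ) = |(d : ℝ)| := by rw [Nat.cast_natAbs, Int.cast_abs]
      have habs : |(d : ℝ) / M| = |(d : ℝ)| / M := by rw [abs_div, abs_of_pos hM0]
      by_cases h : K * M ≤ d.natAbs
      · rw [if_pos h]
        have h2 : (K : ℝ) * M ≤ |(d : ℝ)| := by
          rw [← hnat]
          exact_mod_cast h
        have hd0 : (0 : ℝ) < |(d : ℝ)| := (mul_pos hK0 hM0).trans_le h2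
        have hd2 : (0 : ℝ) < (d : ℝ) ^ 2 := by
          rw [← sq_abs]
          positivity
        have h3 : |1 - Gs m M d| ≤ 2 := by
          have := abs_le.1 (G.le d)
          rw [abs_le]
          constructor <;> linarith
        have h4 : |1 - cut K (d / M)| ≤ 1 := by
          rw [abs_le]
          constructor <;> linarith [cut_nonneg K ((d : ℝ) / M), cut_le K ((d : ℝ) / M)]
        have h5 : |rr R (d / M)| ≤ A * M ^ 2 / (d : ℝ) ^ 2 := by
          refine (hA _).trans ?_
          rw [div_le_div_iff₀ (by positivity) hd2, div_pow]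
          have h6 : A * M ^ 2 * (1 + (d : ℝ) ^ 2 / M ^ 2) = A * M ^ 2 + A * (d : ℝ) ^ 2 := by
            field_simp
          rw [h6]
          have : 0 ≤ A * (M : ℝ) ^ 2 := by positivity
          linarith
        simp only [hF, ha]
        rw [abs_mul, abs_mul, abs_mul, abs_of_pos (by positivity : (0 : ℝ) < 1 / M)]
        calc |1 - cut K (d / M)| * (1 / M * (|rr R (d / M)| * |1 - Gs m M d|))
            ≤ 1 * (1 / M * (A * M ^ 2 / (d : ℝ) ^ 2 * 2)) := by gcongr
          _ = 2 * A * M * (1 / (d : ℝ) ^ 2) := by field_simp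
      · rw [if_neg h, mul_zero]
        have h2 : |(d : ℝ) / M| ≤ K := by
          rw [habs, div_le_iff₀ hM0, ← hnat]
          have : d.natAbs ≤ K * M := by omega
          exact_mod_cast this
        simp only [hF, cut_near K h2, sub_self, zero_mul, abs_zero, le_refl]
    calc ∑ d ∈ s, |F d| ≤ ∑ d ∈ s, 2 * A * M *
          (if K * M ≤ d.natAbs then 1 / (d : ℝ) ^ 2 else (0 : ℝ)) :=
            Finset.sum_le_sum fun d _ => h1 d
      _ = 2 * A * M * ∑ d ∈ s, (if K * M ≤ d.natAbs then 1 / (d : ℝ) ^ 2 else (0 : ℝ)) := by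
            rw [Finset.mul_sum]
      _ ≤ 2 * A * M * ((4 : ℝ) / ((K * M : ℕ) : ℝ)) := by
            refine mul_le_mul_of_nonneg_left (tail_sum _ ?_ s) (by positivity)
            exact Nat.mul_pos hK1 hM1'
      _ = 8 * A / K := by
            push_cast
            field_simp
            ring
  have hsF : Summable fun d => |F d| := summable_of_sum_le (fun d => abs_nonneg _) hFb
  have hsF' : Summable F := hsF.of_abs
  have hFt : |∑' d, F d| ≤ 8 * A / K := by
    have h1 : ‖∑' d, F d‖ ≤ ∑' d, ‖F d‖ := norm_tsum_le_tsum_norm hsF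
    exact h1.trans (hsF.tsum_le_of_sum_le hFb)
  have hTLe : TL = (R 0 - S) - ∑' d, F d := by
    have h1 : HasSum (fun d : ℤ => cut K ((d : ℝ) / M) * a d) ((R 0 - S) - ∑' d, F d) := by
      refine (hsa.sub hsF'.hasSum).congr_fun ?_
      intro d
      simp only [hF]
      ring
    have h2 : HasSum (fun d : ℤ => cut K ((d : ℝ) / M) * a d)
        (∑ d ∈ D, cut K ((d : ℝ) / M) * a d) := by
      refine hasSum_sum_of_ne_finset_zero fun d hd => ?_
      by_cases hd0 : d = 0
      · subst hd0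
        simp only [ha, G.zero, sub_self, mul_zero]
      · have h3 : ((K + 1) * M : ℕ) < d.natAbs := by
          by_contra hcon
          apply hd
          rw [hD, Finset.mem_erase, Finset.mem_Icc]
          refine ⟨hd0, ?_, ?_⟩ <;> omega
        have h4 : ((K + 1 : ℕ) : ℝ) ≤ |(d : ℝ) / M| := by
          rw [abs_div, abs_of_pos hM0, le_div_iff₀ hM0, ← Int.cast_abs, ← Nat.cast_natAbs]
          exact_mod_cast h3.le
        rw [cut_far K h4, zero_mul]
    rw [h1.unique h2, hTL]
    refine Finset.sum_congr rfl fun d _ => ?_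
    simp only [hf, ha]
    ring
  -- the integral
  have hJ : (∫ α in (-1 : ℝ)..1, R α * (1 - |α|)) =
      R 0 - Pool.Agent.Y748.SR.mt R + rr R 0 := by
    have h5 : rr R 0 = ∫ α in (-1 : ℝ)..1, R α := by
      unfold rr
      refine intervalIntegral.integral_congr fun α _ => ?_
      simp
    have i1 : IntervalIntegrable R volume (-1) 1 := hR.cont.intervalIntegrable _ _
    have i2 : IntervalIntegrable (fun α : ℝ => |α| * R α) volume (-1) 1 :=
      (continuous_abs.mul hR.cont).intervalIntegrable _ _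
    have h6 : ∫ α in (-1 : ℝ)..1, R α * (1 - |α|) =
        (∫ α in (-1 : ℝ)..1, R α) - ∫ α in (-1 : ℝ)..1, |α| * R α := by
      rw [← intervalIntegral.integral_sub i1 i2]
      refine intervalIntegral.integral_congr fun α _ => ?_
      ring
    rw [h6, h5]
    unfold Pool.Agent.Y748.SR.mt
    ring
  have hf00 : f 0 = rr R 0 := by
    simp only [hf]
    rw [cut_near K (by rw [abs_zero]; exact hK0.le), mul_one]
  filter_upwards [H.tend.eventually hg1, H.tend.eventually hg2, hg3] with j e1 e2 e3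
  rw [hJ]
  rw [hf00] at e1
  have b1 := abs_le.1 e1
  have b2 := abs_le.1 e2
  have b3 := abs_le.1 e3
  have b4 := abs_le.1 hFt
  rw [hTLe] at b3
  rw [abs_le]
  constructor <;> linarith [b1.1, b1.2, b2.1, b2.2, b3.1, b3.2, b4.1, b4.2]

end Pool.Agent.Y576.SR
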